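import Pool.Agent.OCX.All

/-!
# MP_e73810_co: for all large odd `k` the extremal graphs are blow-ups of `C_(l+2)`

`(SimpleGraph.cycleGraph (l + 2)).comap F` is the blow-up of the cycle of length `l + 2` whose
class of the vertex `i` is the set of all `x` with `F x = i`.
-/

namespace Pool.Agent.Results.MP_e73810_co.LargeCycles

/-- For every odd `l ≥ 3`, every sufficiently large odd `k` and every sufficiently large `n`, every
`C_l`-free graph on `n` vertices which maximises the number of `k`-cycles is a blow-up of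
`C_(l+2)`. -/
theorem result : ∀ l : ℕ, Odd l → 3 ≤ l → ∃ k0 : ℕ, ∀ k : ℕ, k0 ≤ k → Odd k →
    ∃ n0 : ℕ, ∀ n : ℕ, n0 ≤ n → ∀ G : SimpleGraph (Fin n), (SimpleGraph.cycleGraph l).Free G →
      (∀ G' : SimpleGraph (Fin n), (SimpleGraph.cycleGraph l).Free G' →
        G'.copyCount (SimpleGraph.cycleGraph k) ≤ G.copyCount (SimpleGraph.cycleGraph k)) →
      ∃ F : Fin n → Fin (l + 2), G = (SimpleGraph.cycleGraph (l + 2)).comap F :=
  Pool.Agent.OCX.main

end Pool.Agent.Results.MP_e73810_co.LargeCycles
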